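import Mathlib

set_option autoImplicit false

/-!
Definability with constants in the ring language, in a semantic (predicate) form.
-/

namespace Pool.Agent.LPU64

open FirstOrder FirstOrder.Language FirstOrder.Ring

universe u

section

variable {H : Type u} [CommRing H] [CompatibleRing H] {K : Type u} (k : K → H)

/-- `TDef k t` : the function `t` of the variables is given by a ring term with constants
from the range of `k`. -/
def TDef {α : Type} (t : (α → H) → H) : Prop :=
  ∃ τ : Language.ring.Term (α ⊕ K), ∀ v, τ.realize (Sum.elim v k) = t v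

/-- `FDef k s` : the predicate `s` of the variables is given by a first order formula in the ring
language with constants from the range of `k`. -/
def FDef {α : Type} (s : (α → H) → Prop) : Prop :=
  ∃ φ : Language.ring.Formula (α ⊕ K), ∀ v, φ.Realize (Sum.elim v k) ↔ s v

variable {k} {α β : Type}

theorem TDef.var (i : α) : TDef k (fun v : α → H => v i) :=
  ⟨Term.var (Sum.inl i), fun v => by simp⟩

theorem TDef.const (c : K) : TDef k (fun _ : α → H => k c) :=
  ⟨Term.var (Sum.inr c), fun v => by simp⟩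

theorem TDef.zero : TDef k (fun _ : α → H => (0 : H)) :=
  ⟨0, fun v => by simp⟩

theorem TDef.one : TDef k (fun _ : α → H => (1 : H)) :=
  ⟨1, fun v => by simp⟩

theorem TDef.add {s t : (α → H) → H} (hs : TDef k s) (ht : TDef k t) :
    TDef k (fun v => s v + t v) := by
  obtain ⟨a, ha⟩ := hs
  obtain ⟨b, hb⟩ := ht
  exact ⟨a + b, fun v => by simp [ha, hb]⟩

theorem TDef.mul {s t : (α → H) → H} (hs : TDef k s) (ht : TDef k t) :
    TDef k (fun v => s v * t v) := by
  obtain ⟨a, ha⟩ := hs
  obtain ⟨b, hb⟩ := ht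
  exact ⟨a * b, fun v => by simp [ha, hb]⟩

theorem TDef.neg {s : (α → H) → H} (hs : TDef k s) :
    TDef k (fun v => - s v) := by
  obtain ⟨a, ha⟩ := hs
  exact ⟨-a, fun v => by simp [ha]⟩

theorem TDef.sub {s t : (α → H) → H} (hs : TDef k s) (ht : TDef k t) :
    TDef k (fun v => s v - t v) := by
  simpa [sub_eq_add_neg] using hs.add ht.neg

theorem TDef.sum {ι : Type*} (S : Finset ι) {t : ι → (α → H) → H} (h : ∀ i ∈ S, TDef k (t i)) :
    TDef k (fun v => ∑ i ∈ S, t i v) := by
  classical
  induction S using Finset.induction_on with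
  | empty => simpa using TDef.zero
  | insert a S ha ih =>
    simp only [Finset.sum_insert ha]
    exact (h a (by simp)).add (ih fun i hi => h i (by simp [hi]))

theorem TDef.pow {s : (α → H) → H} (hs : TDef k s) (n : ℕ) :
    TDef k (fun v => s v ^ n) := by
  induction n with
  | zero => simpa using TDef.one
  | succ n ih => simpa [pow_succ] using ih.mul hs

/-- substitution of variables in a term function -/
theorem TDef.comp {t : (α → H) → H} (ht : TDef k t) (f : α → β) :
    TDef k (fun v : β → H => t (fun i => v (f i))) := by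
  obtain ⟨a, ha⟩ := ht
  refine ⟨a.relabel (Sum.map f id), fun v => ?_⟩
  have : (Sum.elim v k ∘ Sum.map f id) = Sum.elim (fun i => v (f i)) k := by
    ext x
    rcases x with x | x <;> simp
  rw [Term.realize_relabel, this]
  exact ha _

theorem TDef.inl {t : (α → H) → H} (ht : TDef k t) :
    TDef k (fun v : α ⊕ β → H => t (fun i => v (Sum.inl i))) := ht.comp Sum.inl

theorem FDef.comp {s : (α → H) → Prop} (hs : FDef k s) (f : α → β) :
    FDef k (fun v : β → H => s (fun i => v (f i))) := by
  obtain ⟨a, ha⟩ := hs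
  refine ⟨a.relabel (Sum.map f id), fun v => ?_⟩
  have : (Sum.elim v k ∘ Sum.map f id) = Sum.elim (fun i => v (f i)) k := by
    ext x
    rcases x with x | x <;> simp
  rw [Formula.realize_relabel, this]
  exact ha _

theorem FDef.congr {s t : (α → H) → Prop} (hs : FDef k s) (h : ∀ v, s v ↔ t v) : FDef k t := by
  obtain ⟨a, ha⟩ := hs
  exact ⟨a, fun v => (ha v).trans (h v)⟩

theorem FDef.eq {s t : (α → H) → H} (hs : TDef k s) (ht : TDef k t) :
    FDef k (fun v => s v = t v) := by
  obtain ⟨a, ha⟩ := hs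
  obtain ⟨b, hb⟩ := ht
  exact ⟨a.equal b, fun v => by simp [ha, hb]⟩

theorem FDef.not {s : (α → H) → Prop} (hs : FDef k s) : FDef k (fun v => ¬ s v) := by
  obtain ⟨a, ha⟩ := hs
  exact ⟨∼a, fun v => by simp [ha]⟩

theorem FDef.and {s t : (α → H) → Prop} (hs : FDef k s) (ht : FDef k t) :
    FDef k (fun v => s v ∧ t v) := by
  obtain ⟨a, ha⟩ := hs
  obtain ⟨b, hb⟩ := ht
  exact ⟨a ⊓ b, fun v => by simp [ha, hb]⟩

theorem FDef.or {s t : (α → H) → Prop} (hs : FDef k s) (ht : FDef k t) :
    FDef k (fun v => s v ∨ t v) := by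
  obtain ⟨a, ha⟩ := hs
  obtain ⟨b, hb⟩ := ht
  exact ⟨a ⊔ b, fun v => by simp [ha, hb]⟩

theorem FDef.imp {s t : (α → H) → Prop} (hs : FDef k s) (ht : FDef k t) :
    FDef k (fun v => s v → t v) := by
  obtain ⟨a, ha⟩ := hs
  obtain ⟨b, hb⟩ := ht
  exact ⟨a.imp b, fun v => by simp [ha, hb]⟩

theorem FDef.true : FDef k (fun _ : α → H => True) :=
  (FDef.eq (k := k) (α := α) TDef.zero TDef.zero).congr (by simp)

theorem FDef.ball {ι : Type*} (S : Finset ι) {s : ι → (α → H) → Prop} (h : ∀ i, FDef k (s i)) :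
    FDef k (fun v => ∀ i ∈ S, s i v) := by
  classical
  induction S using Finset.induction_on with
  | empty => simpa using FDef.true
  | insert a S ha ih =>
    simp only [Finset.forall_mem_insert]
    exact (h a).and ih

theorem FDef.fall {ι : Type*} [Fintype ι] {s : ι → (α → H) → Prop} (h : ∀ i, FDef k (s i)) :
    FDef k (fun v => ∀ i, s i v) :=
  (FDef.ball Finset.univ h).congr (by simp)

/-- existential quantification over a finite block of variables -/
theorem FDef.exs [Finite β] {Q : (α → H) → (β → H) → Prop}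
    (h : FDef k (fun u : α ⊕ β → H => Q (fun i => u (Sum.inl i)) (fun j => u (Sum.inr j)))) :
    FDef k (fun v => ∃ w, Q v w) := by
  obtain ⟨φ, hφ⟩ := h
  -- rearrange the variables
  let f : (α ⊕ β) ⊕ K → (α ⊕ K) ⊕ β := fun x =>
    match x with
    | Sum.inl (Sum.inl a) => Sum.inl (Sum.inl a)
    | Sum.inl (Sum.inr b) => Sum.inr b
    | Sum.inr c => Sum.inl (Sum.inr c)
  refine ⟨(φ.relabel f).iExs β, fun v => ?_⟩
  rw [Formula.realize_iExs]
  refine exists_congr fun w => ?_
  rw [Formula.realize_relabel]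
  have h1 : ((Sum.elim (Sum.elim v k) w) ∘ f) = Sum.elim (Sum.elim v w) k := by
    ext x
    rcases x with (x | x) | x <;> simp [f]
  rw [h1, hφ]
  simp

theorem FDef.alls [Finite β] {Q : (α → H) → (β → H) → Prop}
    (h : FDef k (fun u : α ⊕ β → H => Q (fun i => u (Sum.inl i)) (fun j => u (Sum.inr j)))) :
    FDef k (fun v => ∀ w, Q v w) := by
  have := (FDef.exs (Q := fun v w => ¬ Q v w) h.not).not
  exact this.congr (by simp)

theorem FDef.ex {Q : (α → H) → H → Prop}
    (h : FDef k (fun u : α ⊕ Unit → H => Q (fun i => u (Sum.inl i)) (u (Sum.inr ())))) :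
    FDef k (fun v => ∃ w, Q v w) := by
  have := FDef.exs (β := Unit) (Q := fun v w => Q v (w ())) h
  refine this.congr fun v => ⟨fun ⟨w, hw⟩ => ⟨w (), hw⟩, fun ⟨w, hw⟩ => ⟨fun _ => w, hw⟩⟩

theorem FDef.all {Q : (α → H) → H → Prop}
    (h : FDef k (fun u : α ⊕ Unit → H => Q (fun i => u (Sum.inl i)) (u (Sum.inr ())))) :
    FDef k (fun v => ∀ w, Q v w) := by
  have := (FDef.ex (Q := fun v w => ¬ Q v w) h.not).not
  exact this.congr (by simp)

theorem FDef.dvd {s t : (α → H) → H} (hs : TDef k s) (ht : TDef k t) :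
    FDef k (fun v => s v ∣ t v) :=
  FDef.ex (Q := fun v w => t v = s v * w) (FDef.eq ht.inl (hs.inl.mul (TDef.var _)))

theorem FDef.isUnit {s : (α → H) → H} (hs : TDef k s) : FDef k (fun v => IsUnit (s v)) :=
  (FDef.dvd hs TDef.one).congr fun _ => isUnit_iff_dvd_one.symm

theorem FDef.mem_span {ι : Type} [Fintype ι] {s : ι → (α → H) → H} {t : (α → H) → H}
    (hs : ∀ i, TDef k (s i)) (ht : TDef k t) :
    FDef k (fun v => t v ∈ Ideal.span (Set.range fun i => s i v)) := by
  have : FDef k (fun v => ∃ c : ι → H, ∑ i, c i * s i v = t v) := by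
    refine FDef.exs (Q := fun v c => ∑ i, c i * s i v = t v) ?_
    exact FDef.eq (TDef.sum _ fun i _ => (TDef.var (Sum.inr i)).mul (hs i).inl) ht.inl
  exact this.congr fun v => (Ideal.mem_span_range_iff_exists_fun).symm

end

end Pool.Agent.LPU64
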