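import Mathlib
import Pool.Agent.LPU64.Definability
import Pool.Agent.LPU64.PolyEnd

set_option autoImplicit false

universe u

noncomputable section

namespace Pool.Agent.LPU64

open MvPolynomial FirstOrder FirstOrder.Ring

variable {P : Type u} [Field P] {σ : Type}

/-- the ideal generated by the differences -/
def DI (z c : σ → MvPolynomial σ P) : Ideal (MvPolynomial σ P) :=
  Ideal.span (Set.range fun i => z i - c i)

/-- The property isolating bases, infinite field case. -/
def GenInf (z : σ → MvPolynomial σ P) : Prop :=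
  (∀ c : σ → MvPolynomial σ P, (∀ i, IsC (c i)) →
    ((1 : MvPolynomial σ P) ∉ DI z c ∧ ∀ h : MvPolynomial σ P, ∃ d, IsC d ∧ h - d ∈ DI z c)) ∧
  (∀ g : MvPolynomial σ P, (∀ c : σ → MvPolynomial σ P, (∀ i, IsC (c i)) → g ∈ DI z c) → g = 0) ∧
  (∀ w : σ → MvPolynomial σ P, ∀ h : MvPolynomial σ P, ∃ h' : MvPolynomial σ P,
    ∀ c a : σ → MvPolynomial σ P, ∀ d : MvPolynomial σ P,
      (∀ i, IsC (c i)) → (∀ i, IsC (a i)) → IsC d →
      (∀ i, w i - a i ∈ DI z c) → h - d ∈ DI z a → h' - d ∈ DI z c)

theorem mem_DI_X_C (c : σ → P) (p : MvPolynomial σ P) :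
    p - C (eval c p) ∈ DI (X : σ → MvPolynomial σ P) (fun i => C (c i)) := by
  have := aeval_sub_aeval_mem (A := MvPolynomial σ P) X (fun i => C (c i)) p
  have h2 : aeval (fun i => (C (c i) : MvPolynomial σ P)) p = C (eval c p) := by
    have := aeval_algebraMap_apply (MvPolynomial σ P) c p
    rw [algebraMap_eq] at this
    exact this
  rw [h2, aeval_X_left_apply] at this
  exact this

theorem mem_DI_X_C_iff (c : σ → P) (p : MvPolynomial σ P) :
    p ∈ DI (X : σ → MvPolynomial σ P) (fun i => C (c i)) ↔ eval c p = 0 := by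
  constructor
  · intro h
    have hle : DI (X : σ → MvPolynomial σ P) (fun i => C (c i)) ≤ RingHom.ker (eval c) := by
      apply Ideal.span_le.2
      rintro _ ⟨i, rfl⟩
      simp
    exact hle h
  · intro h
    have := mem_DI_X_C c p
    rwa [h, map_zero, sub_zero] at this

theorem genInf_X [Infinite P] : GenInf (X : σ → MvPolynomial σ P) := by
  refine ⟨?_, ?_, ?_⟩
  · intro c hc
    choose c' hc' using hc
    obtain rfl : c = fun i => C (c' i) := funext hc'
    refine ⟨?_, fun h => ⟨C (eval c' h), ⟨_, rfl⟩, mem_DI_X_C _ _⟩⟩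
    rw [mem_DI_X_C_iff]
    simp
  · intro g hg
    apply MvPolynomial.funext
    intro c
    rw [map_zero, ← mem_DI_X_C_iff]
    exact hg _ fun i => ⟨_, rfl⟩
  · intro w h
    refine ⟨aeval w h, ?_⟩
    intro c a d hc ha hd hw hh
    choose c' hc' using hc
    obtain rfl : c = fun i => C (c' i) := funext hc'
    choose a' ha' using ha
    obtain rfl : a = fun i => C (a' i) := funext ha'
    obtain ⟨d', rfl⟩ := hd
    simp only [mem_DI_X_C_iff, map_sub, eval_C, sub_eq_zero] at hw hh ⊢
    rw [← hh]
    have : (eval c') ((aeval w) h) = eval (fun i => eval c' (w i)) h := by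
      have := congrArg (fun f : MvPolynomial σ P →ₐ[P] P => f h)
        (MvPolynomial.comp_aeval (f := w) (MvPolynomial.aeval c' : MvPolynomial σ P →ₐ[P] P))
      simpa [coe_aeval_eq_eval] using this
    rw [this]
    simp [hw]

theorem exists_hom_of_genInf {z : σ → MvPolynomial σ P} (hz : GenInf z)
    (w : σ → MvPolynomial σ P) :
    ∃ φ : MvPolynomial σ P →ₐ[P] MvPolynomial σ P, ∀ i, φ (z i) = w i := by
  classical
  obtain ⟨h1, h2, h3⟩ := hz
  let CC : (σ → P) → (σ → MvPolynomial σ P) := fun c i => C (c i)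
  have hCC : ∀ c i, IsC (CC c i) := fun c i => ⟨_, rfl⟩
  have hC_inj : ∀ (c : σ → P) (d e : P), C d - C e ∈ DI z (CC c) → d = e := by
    intro c d e hde
    by_contra hne
    have hu : IsUnit (C (d - e) : MvPolynomial σ P) :=
      (isUnit_iff_ne_zero.2 (sub_ne_zero.2 hne)).map C
    rw [← map_sub] at hde
    exact (h1 (CC c) (hCC c)).1 ((Ideal.eq_top_of_isUnit_mem _ hde hu) ▸ Submodule.mem_top)
  have hev : ∀ (c : σ → P) (h : MvPolynomial σ P), ∃ d : P, h - C d ∈ DI z (CC c) := by
    intro c h
    obtain ⟨d, ⟨d', rfl⟩, hd⟩ := (h1 (CC c) (hCC c)).2 h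
    exact ⟨d', hd⟩
  choose ev hev using hev
  have hev_eq : ∀ (c : σ → P) (h : MvPolynomial σ P) (d : P), h - C d ∈ DI z (CC c) →
      ev c h = d := by
    intro c h d hd
    apply hC_inj c
    have := Ideal.sub_mem _ hd (hev c h)
    convert this using 1
    ring
  have hext : ∀ g g' : MvPolynomial σ P, (∀ c, ev c g = ev c g') → g = g' := by
    intro g g' hgg
    have : g - g' = 0 := by
      apply h2
      intro c hc
      choose c' hc' using hc
      obtain rfl : c = fun i => C (c' i) := _root_.funext hc'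
      have e1 := hev c' g
      have e2 := hev c' g'
      rw [hgg] at e1
      have := Ideal.sub_mem _ e1 e2
      convert this using 1
      ring
    exact sub_eq_zero.1 this
  have hadd : ∀ c g g', ev c (g + g') = ev c g + ev c g' := by
    intro c g g'
    apply hev_eq
    have := Ideal.add_mem _ (hev c g) (hev c g')
    convert this using 1
    rw [map_add]; ring
  have hmul : ∀ c g g', ev c (g * g') = ev c g * ev c g' := by
    intro c g g'
    apply hev_eq
    have := Ideal.add_mem _ (Ideal.mul_mem_left _ g (hev c g'))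
      (Ideal.mul_mem_left _ (C (ev c g')) (hev c g))
    convert this using 1
    rw [map_mul]; ring
  have hconst : ∀ c d, ev c (C d) = d := by
    intro c d
    apply hev_eq
    simp
  have hz : ∀ c i, ev c (z i) = c i := by
    intro c i
    apply hev_eq
    exact Ideal.subset_span ⟨i, rfl⟩
  -- the endomorphism
  choose φ hφ using h3 w
  have key : ∀ h c, ev c (φ h) = ev (fun i => ev c (w i)) h := by
    intro h c
    apply hev_eq
    apply hφ h (CC c) (CC fun i => ev c (w i)) _ (hCC _) (hCC _) ⟨_, rfl⟩
    · intro i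
      exact hev c (w i)
    · exact hev _ _
  refine ⟨AlgHom.mk' (RingHom.mk' ⟨⟨φ, ?_⟩, ?_⟩ ?_) ?_, ?_⟩
  · apply hext; intro c; rw [key]; 
    have := hconst
    simp only [← C_1, hconst]
  · intro g g'
    apply hext; intro c
    simp only [key, hmul]
  · intro g g'
    apply hext; intro c
    simp only [MonoidHom.coe_mk, OneHom.coe_mk, key, hadd]
  · intro d g
    apply hext; intro c
    simp only [MvPolynomial.smul_eq_C_mul]
    change ev c (φ _) = ev c (C d * φ g)
    rw [key, hmul, hmul, key, hconst, hconst]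
  · intro i
    apply hext; intro c
    change ev c (φ _) = _
    rw [key, hz]

end Pool.Agent.LPU64
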