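import Mathlib

set_option autoImplicit false

universe u

noncomputable section

namespace Pool.Agent.LPU64

open MvPolynomial

variable {A : Type u} [CommRing A] {σ : Type}

/-- polynomials all of whose monomials have degree less than `d` -/
def Low (d : ℕ) : Submodule A (MvPolynomial σ A) where
  carrier := {p | ∀ m ∈ p.support, m.degree < d}
  add_mem' := by
    classical
    intro p q hp hq m hm
    have := MvPolynomial.support_add hm
    rw [Finset.mem_union] at this
    rcases this with h | h
    · exact hp m h
    · exact hq m h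
  zero_mem' := by simp
  smul_mem' := by
    intro c p hp m hm
    exact hp m (MvPolynomial.support_smul hm)

theorem mem_Low {d : ℕ} {p : MvPolynomial σ A} :
    p ∈ Low d ↔ ∀ m ∈ p.support, m.degree < d := Iff.rfl

theorem Low_mono {d e : ℕ} (h : d ≤ e) {p : MvPolynomial σ A} (hp : p ∈ Low d) : p ∈ Low e :=
  fun m hm => lt_of_lt_of_le (hp m hm) h

theorem mul_mem_Low {d e : ℕ} {p q : MvPolynomial σ A} (hp : p ∈ Low d) (hq : q ∈ Low (e + 1)) :
    p * q ∈ Low (d + e) := by
  classical
  intro m hm
  have := MvPolynomial.support_mul p q hm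
  rw [Finset.mem_add] at this
  obtain ⟨a, ha, b, hb, rfl⟩ := this
  have h1 := hp a ha
  have h2 := hq b hb
  rw [map_add]
  omega

theorem monomial_mem_Low (s : σ →₀ ℕ) (a : A) : monomial s a ∈ Low (A := A) (s.degree + 1) := by
  classical
  intro m hm
  have := MvPolynomial.support_monomial_subset hm
  rw [Finset.mem_singleton] at this
  subst this
  exact Nat.lt_succ_self _

/-- `T k a p` : `p` equals the monomial `a` up to degree less than `deg a`. -/
def IsTop (a : σ →₀ ℕ) (p : MvPolynomial σ A) : Prop := p - monomial a 1 ∈ Low a.degree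

theorem IsTop.mul {a b : σ →₀ ℕ} {p q : MvPolynomial σ A} (hp : IsTop a p) (hq : IsTop b q) :
    IsTop (a + b) (p * q) := by
  unfold IsTop at *
  have h1 : monomial (a + b) (1 : A) = monomial a 1 * monomial b 1 := by
    rw [monomial_mul, one_mul]
  have hq' : q ∈ Low (A := A) (b.degree + 1) := by
    have : q = (q - monomial b 1) + monomial b 1 := by ring
    rw [this]
    exact Submodule.add_mem _ (Low_mono (Nat.le_succ _) hq) (monomial_mem_Low _ _)
  have h2 : p * q - monomial (a + b) 1 =
      (p - monomial a 1) * q + (q - monomial b 1) * monomial a 1 := by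
    rw [h1]; ring
  rw [h2, map_add]
  refine Submodule.add_mem _ (mul_mem_Low hp hq') ?_
  rw [add_comm]
  exact mul_mem_Low hq (monomial_mem_Low _ _)

theorem IsTop.one : IsTop (0 : σ →₀ ℕ) (1 : MvPolynomial σ A) := by
  unfold IsTop
  have : (1 : MvPolynomial σ A) - monomial 0 1 = 0 := by
    rw [← C_apply, C_1, sub_self]
  rw [this]
  exact Submodule.zero_mem _

theorem IsTop.pow {a : σ →₀ ℕ} {p : MvPolynomial σ A} (hp : IsTop a p) (n : ℕ) :
    IsTop (n • a) (p ^ n) := by
  induction n with
  | zero => simpa using IsTop.one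
  | succ n ih =>
    rw [pow_succ, succ_nsmul]
    exact ih.mul hp

theorem IsTop.prod {ι : Type*} (S : Finset ι) {a : ι → σ →₀ ℕ} {p : ι → MvPolynomial σ A}
    (hp : ∀ i ∈ S, IsTop (a i) (p i)) : IsTop (∑ i ∈ S, a i) (∏ i ∈ S, p i) := by
  classical
  induction S using Finset.induction_on with
  | empty => simpa using IsTop.one
  | insert j S hj ih =>
    rw [Finset.sum_insert hj, Finset.prod_insert hj]
    exact (hp j (by simp)).mul (ih fun i hi => hp i (by simp [hi]))

variable [Fintype σ]

variable (N : ℕ) (w : σ → MvPolynomial σ A)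

/-- the images of the monomials under the triangular map -/
def psiMon (s : σ →₀ ℕ) : MvPolynomial σ A :=
  ∏ i, (X i ^ (s i % N) * (X i ^ N - w i) ^ (s i / N))

/-- the triangular map -/
def psi : MvPolynomial σ A →ₗ[A] MvPolynomial σ A :=
  (basisMonomials σ A).constr A (psiMon N w)

theorem psi_monomial (s : σ →₀ ℕ) : psi N w (monomial s 1) = psiMon N w s := by
  have := (basisMonomials σ A).constr_basis A (psiMon N w) s
  rwa [coe_basisMonomials] at this

variable {N w}

theorem isTop_psiMon (hw : ∀ i, w i ∈ Low (A := A) N) (s : σ →₀ ℕ) :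
    IsTop s (psiMon N w s) := by
  classical
  have hX : ∀ i, IsTop (A := A) (Finsupp.single i 1) (X i : MvPolynomial σ A) := by
    intro i
    unfold IsTop
    have : (X i : MvPolynomial σ A) - monomial (Finsupp.single i 1) 1 = 0 := by
      simp [X]
    rw [this]
    exact Submodule.zero_mem _
  have hT : ∀ i, IsTop (A := A) (N • Finsupp.single i 1) (X i ^ N - w i : MvPolynomial σ A) := by
    intro i
    have h1 := (hX i).pow N
    unfold IsTop at h1 ⊢
    have h2 : (N • Finsupp.single i 1 : σ →₀ ℕ).degree = N := by simp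
    have h3 : X i ^ N - w i - (monomial (N • Finsupp.single i 1)) (1 : A) =
        (X i ^ N - (monomial (N • Finsupp.single i 1)) (1 : A)) - w i := by ring
    rw [h3]
    refine Submodule.sub_mem _ h1 ?_
    rw [h2]
    exact hw i
  have h := IsTop.prod Finset.univ (fun i (_ : i ∈ Finset.univ) =>
    ((hX i).pow (s i % N)).mul ((hT i).pow (s i / N)))
  have hs : (∑ i, ((s i % N) • (Finsupp.single i 1 : σ →₀ ℕ) +
      (s i / N) • (N • Finsupp.single i 1))) = s := by
    ext j
    rw [Finsupp.finsetSum_apply, Finset.sum_eq_single j]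
    · simp only [Finsupp.smul_single, smul_eq_mul, mul_one, Finsupp.coe_add, Pi.add_apply,
        Finsupp.single_eq_same]
      exact Nat.mod_add_div' (s j) N
    · intro b _ hb
      simp [hb]
    · simp
  rw [hs] at h
  exact h

theorem psi_sub_mem (hw : ∀ i, w i ∈ Low (A := A) N) (p : MvPolynomial σ A) (d : ℕ)
    (hp : p ∈ Low (A := A) (d + 1)) : psi N w p - p ∈ Low (A := A) d := by
  classical
  have h1 : psi N w p - p = ∑ m ∈ p.support, p.coeff m • (psiMon N w m - monomial m 1) := by
    have h2 : p = ∑ m ∈ p.support, p.coeff m • (monomial m (1 : A)) := by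
      conv_lhs => rw [p.as_sum]
      refine Finset.sum_congr rfl fun m _ => ?_
      rw [smul_monomial, smul_eq_mul, mul_one]
    conv_lhs => rw [h2]
    rw [map_sum, ← Finset.sum_sub_distrib]
    refine Finset.sum_congr rfl fun m _ => ?_
    rw [map_smul, psi_monomial, smul_sub]
  rw [h1]
  refine Submodule.sum_mem _ fun m hm => Submodule.smul_mem _ _ ?_
  have := isTop_psiMon hw m
  exact Low_mono (Nat.lt_succ_iff.1 (hp m hm)) this

omit [Fintype σ] in
theorem exists_Low (p : MvPolynomial σ A) : ∃ d, p ∈ Low (A := A) d := by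
  classical
  refine ⟨p.support.sup Finsupp.degree + 1, fun m hm => ?_⟩
  exact Nat.lt_succ_of_le (Finset.le_sup (f := Finsupp.degree) hm)

theorem psi_surjective (hw : ∀ i, w i ∈ Low (A := A) N) : Function.Surjective (psi N w) := by
  have key : ∀ d : ℕ, ∀ p ∈ Low (A := A) (σ := σ) d, ∃ q, psi N w q = p := by
    intro d
    induction d with
    | zero =>
      intro p hp
      refine ⟨0, ?_⟩
      rw [map_zero]
      symm
      rw [← MvPolynomial.support_eq_empty, Finset.eq_empty_iff_forall_notMem]
      intro m hm
      exact absurd (hp m hm) (Nat.not_lt_zero _)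
    | succ d ih =>
      intro p hp
      obtain ⟨q, hq⟩ := ih _ (psi_sub_mem hw p d hp)
      exact ⟨p - q, by rw [map_sub, hq]; ring⟩
  intro p
  obtain ⟨d, hd⟩ := exists_Low p
  exact key d p hd

theorem psi_X_pow_mul (hN : 0 < N) (i : σ) (p : MvPolynomial σ A) :
    psi N w (X i ^ N * p) = (X i ^ N - w i) * psi N w p := by
  classical
  -- check on monomials
  have h : (psi N w).comp (LinearMap.mulLeft A (X i ^ N)) =
      (LinearMap.mulLeft A (X i ^ N - w i)).comp (psi N w) := by
    apply (basisMonomials σ A).ext
    intro s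
    rw [coe_basisMonomials]
    simp only [LinearMap.comp_apply, LinearMap.mulLeft_apply]
    rw [psi_monomial]
    have h1 : (X i ^ N * monomial s 1 : MvPolynomial σ A) =
        monomial (s + Finsupp.single i N) 1 := by
      rw [X_pow_eq_monomial, monomial_mul, one_mul, add_comm]
    rw [h1, psi_monomial]
    unfold psiMon
    rw [← Finset.mul_prod_erase Finset.univ _ (Finset.mem_univ i),
      ← Finset.mul_prod_erase Finset.univ (fun j => (X j ^ (s j % N) * (X j ^ N - w j) ^ (s j / N)))
        (Finset.mem_univ i), ← mul_assoc]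
    congr 1
    · simp only [Finsupp.coe_add, Pi.add_apply, Finsupp.single_eq_same, Nat.add_mod_right,
        Nat.add_div_right _ hN, pow_succ]
      ring
    · refine Finset.prod_congr rfl fun j hj => ?_
      have : j ≠ i := Finset.ne_of_mem_erase hj
      simp [this.symm]
  have := congrArg (fun f => f p) h
  simpa using this

/-- The uniqueness lemma: a nonzero polynomial in the ideal generated by the
`w i - X i ^ N` with `deg (w i) < N` has degree at least `N`. -/
theorem eq_zero_of_mem_span (hN : 0 < N) (hw : ∀ i, w i ∈ Low (A := A) N)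
    (g : MvPolynomial σ A) (hg : g ∈ Low (A := A) N)
    (hmem : g ∈ Ideal.span (Set.range fun i => w i - X i ^ N)) : g = 0 := by
  classical
  obtain ⟨c, hc⟩ := (Ideal.mem_span_range_iff_exists_fun).1 hmem
  choose r hr using fun i => psi_surjective hw (- c i)
  have h1 : psi N w (∑ i, X i ^ N * r i) = g := by
    rw [map_sum, ← hc]
    refine Finset.sum_congr rfl fun i _ => ?_
    rw [psi_X_pow_mul hN, hr]
    ring
  set f := ∑ i, X i ^ N * r i with hf
  have h2 : ∀ m ∈ f.support, N ≤ m.degree := by
    intro m hm
    have : ∃ i, m ∈ (X i ^ N * r i).support := by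
      by_contra hcon
      push Not at hcon
      rw [MvPolynomial.mem_support_iff, hf, MvPolynomial.coeff_sum] at hm
      apply hm
      refine Finset.sum_eq_zero fun i _ => ?_
      exact MvPolynomial.notMem_support_iff.1 (hcon i)
    obtain ⟨i, hi⟩ := this
    have := MvPolynomial.support_mul _ _ hi
    rw [Finset.mem_add] at this
    obtain ⟨a, ha, b, hb, rfl⟩ := this
    rw [X_pow_eq_monomial] at ha
    have := MvPolynomial.support_monomial_subset ha
    rw [Finset.mem_singleton] at this
    subst this
    rw [map_add]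
    simp
  by_contra hne
  have hf0 : f ≠ 0 := by
    intro h0
    apply hne
    rw [← h1, h0, map_zero]
  obtain ⟨m, hm, hmax⟩ := Finset.exists_max_image f.support Finsupp.degree
    (MvPolynomial.support_nonempty.2 hf0)
  have h3 : f ∈ Low (A := A) (m.degree + 1) := fun m' hm' => Nat.lt_succ_of_le (hmax m' hm')
  have h4 := psi_sub_mem hw f m.degree h3
  rw [h1] at h4
  have h5 : (g - f).coeff m = 0 := by
    by_contra hcc
    exact absurd (h4 m (MvPolynomial.mem_support_iff.2 hcc)) (lt_irrefl _)
  have h6 : g.coeff m = 0 := by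
    by_contra hcc
    exact absurd (lt_of_lt_of_le (hg m (MvPolynomial.mem_support_iff.2 hcc)) (h2 m hm)) (lt_irrefl _)
  rw [MvPolynomial.coeff_sub, h6, zero_sub, neg_eq_zero] at h5
  exact (MvPolynomial.mem_support_iff.1 hm) h5

end Pool.Agent.LPU64
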