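import Mathlib
import Pool.Agent.LPU64.InfCase
import Pool.Agent.LPU64.Triang

set_option autoImplicit false

universe u

noncomputable section

namespace Pool.Agent.LPU64

open MvPolynomial FirstOrder FirstOrder.Ring

section general

variable {H : Type u} [CommRing H]

/-- first order condition describing the powers of `p` -/
def PW (p g : H) : Prop := g ≠ 0 ∧ (p - 1 ∣ g - 1) ∧ ∀ d, d ∣ g → (IsUnit d ∨ p ∣ d)

/-- basic first order conditions on the first two elements of a basis -/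
def BaseF (a b : H) : Prop :=
  (Prime a ∧ Prime b) ∧ (¬ IsUnit (a - 1) ∧ ¬ IsUnit (b - 1)) ∧
    ∀ u x x', PW a u → PW a x → PW a x' → (u - b ∣ x - x') → x = x'

/-- `EE a b (b ^ n) h g` means `g = h ^ n` -/
def EE (a b y h g : H) : Prop :=
  ∀ u u', PW a u → PW a u' → (u - b ∣ u' - y) → (h - u ∣ g - u')

theorem PW_pow [IsDomain H] {p : H} (hp : Prime p) (n : ℕ) : PW p (p ^ n) := by
  refine ⟨pow_ne_zero _ hp.ne_zero, ?_, ?_⟩
  · have := sub_dvd_pow_sub_pow p 1 n
    rwa [one_pow] at this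
  · intro d hd
    obtain ⟨i, _, hi⟩ := (dvd_prime_pow hp n).1 hd
    rcases Nat.eq_zero_or_pos i with h0 | h0
    · left
      subst h0
      rw [pow_zero] at hi
      exact associated_one_iff_isUnit.1 hi
    · right
      exact (dvd_pow_self p h0.ne').trans hi.symm.dvd

end general

variable {P : Type u} [Field P] {σ : Type}

theorem PW_iff {p g : MvPolynomial σ P} (hp : Prime p) (hp1 : ¬ IsUnit (p - 1)) :
    PW p g ↔ ∃ n, g = p ^ n := by
  constructor
  · rintro ⟨h0, h1, h2⟩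
    obtain ⟨n, a, ha, rfl⟩ := WfDvdMonoid.max_power_factor h0 hp.irreducible
    have hu : IsUnit a := by
      rcases h2 a (dvd_mul_left _ _) with h | h
      · exact h
      · exact absurd h ha
    obtain ⟨c, hc, rfl⟩ := (MvPolynomial.isUnit_iff_eq_C_of_isReduced).1 hu
    have h3 : p - 1 ∣ C (c - 1) := by
      have h4 : p - 1 ∣ p ^ n - 1 := by
        have := sub_dvd_pow_sub_pow p 1 n
        rwa [one_pow] at this
      have h5 : (C (c - 1) : MvPolynomial σ P) = (p ^ n * C c - 1) - C c * (p ^ n - 1) := by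
        rw [map_sub, map_one]; ring
      rw [h5]
      exact dvd_sub h1 (h4.mul_left _)
    have h6 : c = 1 := by
      by_contra hne
      apply hp1
      exact isUnit_of_dvd_unit h3 ((isUnit_iff_ne_zero.2 (sub_ne_zero.2 hne)).map C)
    exact ⟨n, by rw [h6, map_one, mul_one]⟩
  · rintro ⟨n, rfl⟩
    exact PW_pow hp n

theorem one_le_totalDegree_of_prime {a : MvPolynomial σ P} (ha : Prime a) :
    1 ≤ a.totalDegree := by
  rw [Nat.one_le_iff_ne_zero]
  intro h0
  rw [totalDegree_eq_zero_iff_eq_C] at h0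
  apply ha.not_isUnit
  rw [h0]
  refine (isUnit_iff_ne_zero.2 ?_).map C
  intro h
  rw [h, map_zero] at h0
  exact ha.ne_zero h0

theorem totalDegree_pow_of_prime {a : MvPolynomial σ P} (ha : Prime a) (k : ℕ) :
    (a ^ k).totalDegree = k * a.totalDegree := by
  induction k with
  | zero => simp
  | succ k ih =>
    rw [pow_succ, totalDegree_mul_of_isDomain (pow_ne_zero _ ha.ne_zero) ha.ne_zero, ih]
    ring

theorem EE_iff {a b : MvPolynomial σ P} (hB : BaseF a b) (n : ℕ) (h g : MvPolynomial σ P) :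
    EE a b (b ^ n) h g ↔ g = h ^ n := by
  obtain ⟨⟨hpa, hpb⟩, ⟨ha1, hb1⟩, hB⟩ := hB
  constructor
  · intro hE
    have h1 : ∀ k : ℕ, h - a ^ k ∣ g - h ^ n := by
      intro k
      have e1 : h - a ^ k ∣ g - a ^ (k * n) := by
        apply hE (a ^ k) (a ^ (k * n)) (PW_pow hpa _) (PW_pow hpa _)
        rw [pow_mul]
        exact sub_dvd_pow_sub_pow _ _ _
      have e2 : h - a ^ k ∣ h ^ n - a ^ (k * n) := by
        rw [pow_mul]
        exact sub_dvd_pow_sub_pow _ _ _
      have := dvd_sub e1 e2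
      rwa [sub_sub_sub_cancel_right] at this
    by_contra hne
    have hne' : g - h ^ n ≠ 0 := sub_ne_zero.2 hne
    set D := (g - h ^ n).totalDegree with hD
    set k := max h.totalDegree D + 1 with hk
    have e1 : (h - a ^ k).totalDegree ≤ D :=
      totalDegree_le_of_dvd_of_isDomain (h1 k) hne'
    have e2 : (a ^ k).totalDegree = k * a.totalDegree :=
      totalDegree_pow_of_prime hpa k
    have e3 : (a ^ k).totalDegree ≤ max h.totalDegree (h - a ^ k).totalDegree := by
      have : a ^ k = h - (h - a ^ k) := by ring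
      conv_lhs => rw [this]
      exact totalDegree_sub _ _
    have e4 := one_le_totalDegree_of_prime hpa
    have e5 : k ≤ k * a.totalDegree := Nat.le_mul_of_pos_right _ e4
    have e6 : max h.totalDegree (h - a ^ k).totalDegree ≤ max h.totalDegree D :=
      max_le_max le_rfl e1
    omega
  · rintro rfl
    intro u u' hu hu' hd
    obtain ⟨k, rfl⟩ := (PW_iff hpa ha1).1 hu
    have h1 : PW a ((a ^ k) ^ n) := by rw [← pow_mul]; exact PW_pow hpa _
    have h2 : a ^ k - b ∣ u' - (a ^ k) ^ n := by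
      have := dvd_sub hd (sub_dvd_pow_sub_pow (a ^ k) b n)
      rwa [sub_sub_sub_cancel_right] at this
    have h3 := hB _ _ _ hu hu' h1 h2
    rw [h3]
    exact sub_dvd_pow_sub_pow _ _ _

/-- `y` codes an exponent for which the power map is a `P`-algebra map -/
def JJ (a b y : MvPolynomial σ P) : Prop :=
  PW b y ∧ (∀ h1 h2 g1 g2, EE a b y h1 g1 → EE a b y h2 g2 → EE a b y (h1 + h2) (g1 + g2)) ∧
    ∀ c, IsC c → EE a b y c c

/-- The exponents for which the power map is a `P`-algebra map. -/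
def NJ (P : Type u) [Field P] (σ : Type) : Set ℕ :=
  {n | (∀ h1 h2 : MvPolynomial σ P, (h1 + h2) ^ n = h1 ^ n + h2 ^ n) ∧
    ∀ c : MvPolynomial σ P, IsC c → c ^ n = c}

theorem JJ_iff {a b : MvPolynomial σ P} (hB : BaseF a b) (y : MvPolynomial σ P) :
    JJ a b y ↔ ∃ n ∈ NJ P σ, y = b ^ n := by
  constructor
  · rintro ⟨h1, h2, h3⟩
    obtain ⟨n, rfl⟩ := (PW_iff hB.1.2 hB.2.1.2).1 h1
    simp only [EE_iff hB] at h2 h3
    refine ⟨n, ⟨fun h1 h2' => ?_, fun c hc => (h3 c hc).symm⟩, rfl⟩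
    exact (h2 h1 h2' _ _ rfl rfl).symm
  · rintro ⟨n, ⟨h1, h2⟩, rfl⟩
    refine ⟨PW_pow hB.1.2 n, ?_, ?_⟩
    · intro h1' h2' g1 g2 e1 e2
      rw [EE_iff hB] at *
      rw [e1, e2, h1]
    · intro c hc
      rw [EE_iff hB, h2 c hc]

/-- definable relation describing substitutions -/
def RR (i₀ i₁ : σ) (z w : σ → MvPolynomial σ P) (h h' : MvPolynomial σ P) : Prop :=
  ∀ y, JJ (z i₀) (z i₁) y → ∃ g, ∃ v : σ → MvPolynomial σ P,
    EE (z i₀) (z i₁) y h g ∧ (∀ i, EE (z i₀) (z i₁) y (z i) (v i)) ∧ h' - g ∈ DI w v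

/-- The property isolating bases, finite field case. -/
def GenFin (i₀ i₁ : σ) (z : σ → MvPolynomial σ P) : Prop :=
  BaseF (z i₀) (z i₁) ∧ ∀ w : σ → MvPolynomial σ P,
    (∀ h', RR i₀ i₁ z w 0 h' → h' = 0) ∧ ∀ h, ∃ h', RR i₀ i₁ z w h h'

theorem RR_iff {i₀ i₁ : σ} {z : σ → MvPolynomial σ P} (hB : BaseF (z i₀) (z i₁))
    (w : σ → MvPolynomial σ P) (h h' : MvPolynomial σ P) :
    RR i₀ i₁ z w h h' ↔ ∀ n ∈ NJ P σ, h' - h ^ n ∈ DI w (fun i => z i ^ n) := by
  constructor
  · intro hR n hn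
    obtain ⟨g, v, h1, h2, h3⟩ := hR _ ((JJ_iff hB _).2 ⟨n, hn, rfl⟩)
    simp only [EE_iff hB] at h1 h2
    obtain rfl : v = fun i => z i ^ n := _root_.funext h2
    rw [← h1]
    exact h3
  · intro hR y hy
    obtain ⟨n, hn, rfl⟩ := (JJ_iff hB _).1 hy
    refine ⟨h ^ n, fun i => z i ^ n, ?_, ?_, hR n hn⟩
    · rw [EE_iff hB]
    · intro i
      rw [EE_iff hB]

theorem exists_hom_of_genFin {i₀ i₁ : σ} {z : σ → MvPolynomial σ P} (hz : GenFin i₀ i₁ z)
    (w : σ → MvPolynomial σ P) :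
    ∃ φ : MvPolynomial σ P →ₐ[P] MvPolynomial σ P, ∀ i, φ (z i) = w i := by
  obtain ⟨hB, hw⟩ := hz
  obtain ⟨h1, h2⟩ := hw w
  simp only [RR_iff hB] at h1 h2
  have hzero : ∀ n ∈ NJ P σ, (0 : MvPolynomial σ P) ^ n = 0 := fun n hn =>
    hn.2 0 ⟨0, by simp⟩
  choose φ hφ using h2
  have huniq : ∀ h h', (∀ n ∈ NJ P σ, h' - h ^ n ∈ DI w (fun i => z i ^ n)) → φ h = h' := by
    intro h h' hh
    have : φ h - h' = 0 := by
      apply h1
      intro n hn
      rw [hzero n hn]
      have := Ideal.sub_mem _ (hφ h n hn) (hh n hn)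
      convert this using 1
      ring
    exact sub_eq_zero.1 this
  refine ⟨AlgHom.mk' (RingHom.mk' ⟨⟨φ, ?_⟩, ?_⟩ ?_) ?_, ?_⟩
  · apply huniq
    intro n hn
    simp
  · intro g g'
    apply huniq
    intro n hn
    have := Ideal.add_mem _ (Ideal.mul_mem_left _ (φ g') (hφ g n hn))
      (Ideal.mul_mem_left _ (g ^ n) (hφ g' n hn))
    convert this using 1
    simp only
    ring
  · intro g g'
    apply huniq
    intro n hn
    rw [hn.1]
    have := Ideal.add_mem _ (hφ g n hn) (hφ g' n hn)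
    convert this using 1
    simp only [MonoidHom.coe_mk, OneHom.coe_mk]
    ring
  · intro d g
    apply huniq
    intro n hn
    simp only [MvPolynomial.smul_eq_C_mul]
    rw [mul_pow, hn.2 (C d) ⟨d, rfl⟩]
    have := (Ideal.mul_mem_left _ (C d) (hφ g n hn))
    convert this using 1
    change C d * φ g - _ = _
    ring
  · intro i
    apply huniq
    intro n hn
    exact Ideal.subset_span ⟨i, rfl⟩

theorem pow_card_mem_NJ [Fintype P] (j : ℕ) : (Fintype.card P) ^ j ∈ NJ P σ := by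
  obtain ⟨p, hp⟩ := CharP.exists P
  have := hp
  obtain ⟨n, hpp, hn⟩ := FiniteField.card P p
  have : Fact p.Prime := ⟨hpp⟩
  have : CharP (MvPolynomial σ P) p := inferInstance
  constructor
  · intro h1 h2
    rw [hn, ← pow_mul]
    exact add_pow_char_pow h1 h2 p _
  · rintro _ ⟨c, rfl⟩
    rw [← map_pow]
    congr 1
    exact FiniteField.pow_card_pow j c

theorem baseF_X {i₀ i₁ : σ} (hne : i₀ ≠ i₁) :
    BaseF (X i₀ : MvPolynomial σ P) (X i₁) := by
  classical
  have hnu : ∀ i : σ, ¬ IsUnit (X i - 1 : MvPolynomial σ P) := by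
    intro i hu
    have := hu.map (aeval (fun _ => (1 : P)) : MvPolynomial σ P →ₐ[P] P)
    simp at this
  refine ⟨⟨X_prime, X_prime⟩, ⟨hnu _, hnu _⟩, ?_⟩
  intro u x x' hu hx hx' hd
  obtain ⟨k, rfl⟩ := (PW_iff X_prime (hnu _)).1 hu
  obtain ⟨b, rfl⟩ := (PW_iff X_prime (hnu _)).1 hx
  obtain ⟨c, rfl⟩ := (PW_iff X_prime (hnu _)).1 hx'
  have := map_dvd (aeval (Function.update X i₁ (X i₀ ^ k)) :
    MvPolynomial σ P →ₐ[P] MvPolynomial σ P) hd
  simp [Function.update_of_ne hne] at this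
  exact sub_eq_zero.1 this

theorem genFin_X [Fintype P] [Fintype σ] {i₀ i₁ : σ} (hne : i₀ ≠ i₁) :
    GenFin i₀ i₁ (X : σ → MvPolynomial σ P) := by
  classical
  have hB : BaseF (X i₀ : MvPolynomial σ P) (X i₁) := baseF_X hne
  refine ⟨hB, fun w => ⟨?_, ?_⟩⟩
  · intro h' hR
    rw [RR_iff hB] at hR
    -- choose a large exponent
    obtain ⟨d, hd⟩ : ∃ d, (∀ i, w i ∈ Low (A := P) d) ∧ h' ∈ Low (A := P) d := by
      choose f hf using fun i => exists_Low (w i)
      obtain ⟨e, he⟩ := exists_Low h'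
      refine ⟨(Finset.univ.sup f) + e, fun i => Low_mono ?_ (hf i), Low_mono ?_ he⟩
      · exact (Finset.le_sup (Finset.mem_univ i)).trans (Nat.le_add_right _ _)
      · exact Nat.le_add_left _ _
    have hcard : 1 < Fintype.card P := Fintype.one_lt_card
    obtain ⟨j, hj⟩ : ∃ j, d < (Fintype.card P) ^ j :=
      ⟨d, Nat.lt_pow_self hcard⟩
    have hn := pow_card_mem_NJ (P := P) (σ := σ) j
    have h1 := hR _ hn
    have h0 : (0 : MvPolynomial σ P) ^ (Fintype.card P ^ j) = 0 := hn.2 0 ⟨0, by simp⟩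
    rw [h0, sub_zero] at h1
    exact eq_zero_of_mem_span (A := P) (lt_of_le_of_lt (Nat.zero_le _) hj)
      (fun i => Low_mono hj.le (hd.1 i)) h' (Low_mono hj.le hd.2) h1
  · intro h
    refine ⟨aeval w h, ?_⟩
    rw [RR_iff hB]
    intro n hn
    -- the power map is an algebra map
    let F : MvPolynomial σ P →ₐ[P] MvPolynomial σ P :=
      AlgHom.mk' (RingHom.mk' ⟨⟨fun h => h ^ n, by simp⟩, fun a b => mul_pow a b n⟩
        (fun a b => hn.1 a b)) (by
          intro d g
          simp only [MvPolynomial.smul_eq_C_mul]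
          change (C d * g) ^ n = C d * g ^ n
          rw [mul_pow, hn.2 (C d) ⟨d, rfl⟩])
    have hF : F = aeval (fun i => (X i : MvPolynomial σ P) ^ n) := by
      apply MvPolynomial.algHom_ext
      intro i
      rw [aeval_X]
      rfl
    have hF' : h ^ n = aeval (fun i => (X i : MvPolynomial σ P) ^ n) h := by
      rw [← hF]; rfl
    rw [hF']
    exact aeval_sub_aeval_mem _ _ _

end Pool.Agent.LPU64
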