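import Mathlib
import Pool.Agent.LPU64.InfCase

set_option autoImplicit false

universe u

noncomputable section

namespace Pool.Agent.LPU64

open MvPolynomial FirstOrder FirstOrder.Ring

variable {P : Type u} [Field P] {σ : Type} {K : Type u} {k : K → MvPolynomial σ P} {α : Type}

attribute [local instance] compatibleRingOfRing

theorem FDef.isC {t : (α → MvPolynomial σ P) → MvPolynomial σ P} (ht : TDef k t) :
    FDef k (fun v => IsC (t v)) :=
  ((FDef.eq ht TDef.zero).or (FDef.isUnit ht)).congr fun v => (isC_iff (t v)).symm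

theorem FDef.memDI [Fintype σ] {z c : σ → (α → MvPolynomial σ P) → MvPolynomial σ P}
    {t : (α → MvPolynomial σ P) → MvPolynomial σ P}
    (hz : ∀ i, TDef k (z i)) (hc : ∀ i, TDef k (c i)) (ht : TDef k t) :
    FDef k (fun v => t v ∈ DI (fun i => z i v) (fun i => c i v)) :=
  FDef.mem_span (fun i => (hz i).sub (hc i)) ht

theorem genInf_def [Fintype σ] : FDef k (fun z : σ → MvPolynomial σ P => GenInf z) := by
  unfold GenInf
  refine FDef.and ?_ (FDef.and ?_ ?_)
  · refine FDef.alls (Q := fun z c => (∀ i, IsC (c i)) →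
      ((1 : MvPolynomial σ P) ∉ DI z c ∧ ∀ h : MvPolynomial σ P, ∃ d, IsC d ∧ h - d ∈ DI z c)) ?_
    refine FDef.imp (FDef.fall fun i => FDef.isC (TDef.var _)) (FDef.and ?_ ?_)
    · exact FDef.not (FDef.memDI (fun i => TDef.var _) (fun i => TDef.var _) TDef.one)
    · refine FDef.all (FDef.ex (FDef.and (FDef.isC (TDef.var _)) ?_))
      exact (FDef.memDI (fun i => TDef.var _) (fun i => TDef.var _)
        ((TDef.var _).sub (TDef.var _)))
  · refine FDef.all (FDef.imp (FDef.alls (FDef.imp ?_ ?_)) (FDef.eq (TDef.var _) TDef.zero))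
    · exact (FDef.fall fun i => FDef.isC (TDef.var _))
    · exact (FDef.memDI (fun i => TDef.var _) (fun i => TDef.var _) (TDef.var _))
  · refine FDef.alls (FDef.all (FDef.ex (FDef.alls (FDef.alls (FDef.all ?_)))))
    refine FDef.imp (FDef.fall fun i => FDef.isC (TDef.var _)) ?_
    refine FDef.imp (FDef.fall fun i => FDef.isC (TDef.var _)) ?_
    refine FDef.imp (FDef.isC (TDef.var _)) ?_
    refine FDef.imp (FDef.fall fun i => FDef.memDI (fun i => TDef.var _) (fun i => TDef.var _)
        ((TDef.var _).sub (TDef.var _))) ?_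
    refine FDef.imp (FDef.memDI (fun i => TDef.var _) (fun i => TDef.var _)
        ((TDef.var _).sub (TDef.var _))) ?_
    exact (FDef.memDI (fun i => TDef.var _) (fun i => TDef.var _)
        ((TDef.var _).sub (TDef.var _)))

end Pool.Agent.LPU64
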