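import Mathlib
import Pool.Agent.LPU64.FinDef

set_option autoImplicit false

universe u

noncomputable section

namespace Pool.Agent.LPU64

open MvPolynomial FirstOrder FirstOrder.Ring

attribute [local instance] compatibleRingOfRing

variable {P : Type u} [Field P]

/-- The property isolating bases, one variable. -/
def GenOne (z : Fin 1 → MvPolynomial (Fin 1) P) : Prop :=
  ¬ IsC (z 0) ∧ ∀ h, ∃ d, IsC d ∧ z 0 ∣ h - d

theorem genOne_def {K : Type u} {k : K → MvPolynomial (Fin 1) P} :
    FDef k (fun z : Fin 1 → MvPolynomial (Fin 1) P => GenOne z) := by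
  refine FDef.and (FDef.not (FDef.isC (TDef.var _))) ?_
  refine FDef.all (FDef.ex (FDef.and (FDef.isC (TDef.var _)) ?_))
  exact FDef.dvd (TDef.var _) ((TDef.var _).sub (TDef.var _))

theorem genOne_X : GenOne (X : Fin 1 → MvPolynomial (Fin 1) P) := by
  constructor
  · rintro ⟨c, hc⟩
    have := congrArg totalDegree hc
    rw [totalDegree_X, totalDegree_C] at this
    exact one_ne_zero this
  · intro h
    refine ⟨C (constantCoeff h), ⟨_, rfl⟩, ?_⟩
    have := mem_DI_X_C (fun _ => (0 : P)) h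
    unfold DI at this
    obtain ⟨c, hc⟩ := (Ideal.mem_span_range_iff_exists_fun).1 this
    simp at hc
    exact ⟨c 0, by rw [← hc, mul_comm]⟩

theorem exists_equiv_of_genOne {z : Fin 1 → MvPolynomial (Fin 1) P} (hz : GenOne z) :
    ∃ e : MvPolynomial (Fin 1) P ≃ₐ[P] MvPolynomial (Fin 1) P, ∀ i, e (X i) = z i := by
  obtain ⟨h1, h2⟩ := hz
  have hdeg : 1 ≤ (z 0).totalDegree := by
    rw [Nat.one_le_iff_ne_zero]
    intro h0
    rw [totalDegree_eq_zero_iff_eq_C] at h0
    exact h1 ⟨_, h0⟩
  have hz0 : z 0 ≠ 0 := by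
    intro h0
    rw [h0] at hdeg
    simp at hdeg
  have key : ∀ d : ℕ, ∀ h : MvPolynomial (Fin 1) P, h.totalDegree ≤ d →
      ∃ f : MvPolynomial (Fin 1) P, aeval z f = h := by
    intro d
    induction d with
    | zero =>
      intro h hh
      have := (totalDegree_eq_zero_iff_eq_C).1 (Nat.le_zero.1 hh)
      exact ⟨C (coeff 0 h), by rw [aeval_C, algebraMap_eq, ← this]⟩
    | succ d ih =>
      intro h hh
      obtain ⟨c, ⟨c', rfl⟩, g, hg⟩ := h2 h
      have hh' : h = C c' + z 0 * g := by rw [← hg]; ring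
      by_cases hg0 : g = 0
      · exact ⟨C c', by rw [hh', hg0]; simp [algebraMap_eq]⟩
      · have e1 : (z 0 * g).totalDegree = (z 0).totalDegree + g.totalDegree :=
          totalDegree_mul_of_isDomain hz0 hg0
        have e2 : (z 0 * g).totalDegree ≤ h.totalDegree := by
          rw [← hg]
          exact totalDegree_sub_C_le _ _
        obtain ⟨f, hf⟩ := ih g (by omega)
        exact ⟨C c' + X 0 * f, by rw [hh', map_add, map_mul, hf, aeval_X, aeval_C, algebraMap_eq]⟩
  have hsurj : Function.Surjective (aeval z : MvPolynomial (Fin 1) P →ₐ[P] _) :=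
    fun h => key _ h le_rfl
  have hinj : Function.Injective (aeval z : MvPolynomial (Fin 1) P →ₐ[P] _) :=
    injective_of_surjective_noeth ((aeval z : MvPolynomial (Fin 1) P →ₐ[P] _) :
      MvPolynomial (Fin 1) P →+* MvPolynomial (Fin 1) P) hsurj
  exact ⟨AlgEquiv.ofBijective _ ⟨hinj, hsurj⟩, fun i => by simp⟩

/-- The standard basis has an isolated type. -/
theorem exists_gen (P : Type u) [Field P] (m : ℕ) :
    ∃ Gen : (Fin m → MvPolynomial (Fin m) P) → Prop,
      FDef (algebraMap P (MvPolynomial (Fin m) P)) Gen ∧ Gen X ∧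
      ∀ z, Gen z → ∃ e : MvPolynomial (Fin m) P ≃ₐ[P] MvPolynomial (Fin m) P,
        ∀ i, e (X i) = z i := by
  rcases finite_or_infinite P with hfin | hinf
  · match m with
    | 0 => exact ⟨fun _ => True, FDef.true, trivial, fun z _ => ⟨AlgEquiv.refl, fun i => i.elim0⟩⟩
    | 1 => exact ⟨GenOne, genOne_def, genOne_X, fun z hz => exists_equiv_of_genOne hz⟩
    | (m + 2) =>
      have := Fintype.ofFinite P
      refine ⟨GenFin 0 1, genFin_def 0 1, genFin_X (by simp), fun z hz => ?_⟩
      obtain ⟨φ, hφ⟩ := exists_hom_of_genFin hz X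
      exact exists_equiv_of_hom z φ hφ
  · refine ⟨GenInf, genInf_def, genInf_X, fun z hz => ?_⟩
    obtain ⟨φ, hφ⟩ := exists_hom_of_genInf hz X
    exact exists_equiv_of_hom z φ hφ

theorem tdef_aeval {α : Type} {m : ℕ} (p : MvPolynomial (Fin m) P)
    (t : Fin m → (α → MvPolynomial (Fin m) P) → MvPolynomial (Fin m) P)
    (ht : ∀ i, TDef (algebraMap P (MvPolynomial (Fin m) P)) (t i)) :
    TDef (algebraMap P (MvPolynomial (Fin m) P)) (fun v => aeval (fun i => t i v) p) := by
  induction p using MvPolynomial.induction_on with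
  | C a =>
    simp only [aeval_C]
    exact TDef.const a
  | add p q hp hq =>
    simp only [map_add]
    exact hp.add hq
  | mul_X p i hp =>
    simp only [map_mul, aeval_X]
    exact hp.mul (ht i)

/-- Main result: tuples of the same type are conjugate under an automorphism. -/
theorem main (P : Type u) [Field P] (m n : ℕ) (a b : Fin n → MvPolynomial (Fin m) P)
    (h : ∀ φ : FirstOrder.Language.ring.Formula (Fin n ⊕ P),
      φ.Realize (Sum.elim a (algebraMap P (MvPolynomial (Fin m) P))) ↔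
      φ.Realize (Sum.elim b (algebraMap P (MvPolynomial (Fin m) P)))) :
    ∃ σ : MvPolynomial (Fin m) P ≃ₐ[P] MvPolynomial (Fin m) P, ∀ i, σ (a i) = b i := by
  obtain ⟨Gen, hdef, hX, hGen⟩ := exists_gen P m
  have key : FDef (algebraMap P (MvPolynomial (Fin m) P))
      (fun v : Fin n → MvPolynomial (Fin m) P =>
        ∃ z : Fin m → MvPolynomial (Fin m) P, Gen z ∧ ∀ i, aeval z (a i) = v i) := by
    refine FDef.exs (Q := fun v z => Gen z ∧ ∀ i, aeval z (a i) = v i) ?_
    refine FDef.and (hdef.comp Sum.inr) (FDef.fall fun i => FDef.eq ?_ (TDef.var _))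
    exact tdef_aeval (a i) (fun j v => v (Sum.inr j)) (fun j => TDef.var _)
  obtain ⟨φ, hφ⟩ := key
  have h1 : φ.Realize (Sum.elim a (algebraMap P (MvPolynomial (Fin m) P))) := by
    rw [hφ]
    exact ⟨X, hX, fun i => by simp⟩
  obtain ⟨z, hz, hzi⟩ := (hφ b).1 ((h φ).1 h1)
  obtain ⟨e, he⟩ := hGen z hz
  refine ⟨e, fun i => ?_⟩
  have : (e : MvPolynomial (Fin m) P →ₐ[P] MvPolynomial (Fin m) P) = aeval z := by
    apply MvPolynomial.algHom_ext
    intro j
    simp [he]
  rw [← hzi i, ← this]
  rfl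

end Pool.Agent.LPU64
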